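import Mathlib
import Pool.Agent.R579.DrazinDefs

/-!
# MP_632fda_an: the second weakening (Q2) is valid

Let `A`, `B` be bounded operators on complex Hilbert spaces, `A` of finite ascent and `B` right
Drazin invertible, and let `p ≥ max {1, asc A, dsc B}` be such that condition (E) holds, that is
`S = R(A) + N(A^p)` is closed and `S^⊥` has the same dimension as the closure `T` of
`N(B) ∩ R(B^p)`.  Then `M_C` is Drazin invertible for every admissible `C`; its ascent and its
descent are at most `p`.  Condition (iii) is not needed.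
-/

set_option autoImplicit false
set_option linter.unusedSectionVars false

namespace Pool.Agent.Results.MP_632fda_an.Q2True

open Pool.Agent.R579.Drazin Submodule

variable {H K : Type} [NormedAddCommGroup H] [InnerProductSpace ℂ H] [CompleteSpace H]
  [NormedAddCommGroup K] [InnerProductSpace ℂ K] [CompleteSpace K]

lemma snd_pow (A : H →L[ℂ] H) (B : K →L[ℂ] K) (C : K →L[ℂ] H) (k : ℕ) (z : H × K) :
    ((MC A B C ^ k) z).2 = (B ^ k) z.2 := by
  induction k with
  | zero => rfl
  | succ k ih => rw [pow_succ_apply, MC_apply, ih, ← pow_succ_apply]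

lemma fst_pow_succ (A : H →L[ℂ] H) (B : K →L[ℂ] K) (C : K →L[ℂ] H) (k : ℕ) (z : H × K) :
    ((MC A B C ^ (k + 1)) z).1 = A ((MC A B C ^ k) z).1 + C ((B ^ k) z.2) := by
  rw [pow_succ_apply, MC_apply, snd_pow]

lemma fst_pow_of (A : H →L[ℂ] H) (B : K →L[ℂ] K) (C : K →L[ℂ] H) (z : H × K) (p : ℕ)
    (h : ∀ i < p, C ((B ^ i) z.2) = 0) : ((MC A B C ^ p) z).1 = (A ^ p) z.1 := by
  induction p with
  | zero => rfl
  | succ p ih =>
    rw [fst_pow_succ, ih fun i hi => h i (by omega), h p (by omega), add_zero, ← pow_succ_apply]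

section

variable {A : H →L[ℂ] H} {B : K →L[ℂ] K} {C : K →L[ℂ] H} {p : ℕ}

lemma isClosed_kerPow {E : Type} [NormedAddCommGroup E] [NormedSpace ℂ E] (T : E →L[ℂ] E) (k : ℕ) :
    IsClosed (kerPow T k : Set E) := (T ^ k).isClosed_ker

lemma spT_isClosed (B : K →L[ℂ] K) (p : ℕ) : IsClosed (spT B p : Set K) :=
  Submodule.isClosed_topologicalClosure _

/-- the range of an admissible operator is orthogonal to `S` -/
lemma adm_range (hC : Admissible A B p C) (x : K) : C x ∈ (spS A p)ᗮ := by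
  have hcs : CompleteSpace (spT B p) := (spT_isClosed B p).completeSpace_coe
  obtain ⟨⟨J, hJ⟩, h0⟩ := hC
  obtain ⟨t, ht, t', ht', hx⟩ := (spT B p).exists_add_mem_mem_orthogonal x
  rw [hx, map_add, h0 t' ht', add_zero, hJ ⟨t, ht⟩]
  exact (J ⟨t, ht⟩).2

lemma kerPow_le_spS {j : ℕ} (hj : j ≤ p) : kerPow A j ≤ spS A p :=
  (kerPow_mono A hj).trans le_sup_right

lemma ran_mem_spS (h : H) : A h ∈ spS A p := by
  apply Submodule.mem_sup_left
  exact ⟨h, by simp⟩

lemma zero_of_mem {y : H} (h1 : y ∈ spS A p) (h2 : y ∈ (spS A p)ᗮ) : y = 0 :=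
  inner_self_eq_zero.1 (Submodule.inner_right_of_mem_orthogonal h1 h2)

lemma ascent_step (hC : Admissible A B p C) (z : H × K) (k : ℕ) (hk : k ≤ p)
    (h : ((MC A B C ^ k) z).1 ∈ kerPow A (p - k + 1)) :
    z.1 ∈ kerPow A (p + 1) ∧ ((MC A B C ^ k) z).1 = (A ^ k) z.1 := by
  induction k with
  | zero => exact ⟨h, rfl⟩
  | succ k ih =>
    rw [fst_pow_succ, show p - (k + 1) + 1 = p - k by omega] at h
    set w := ((MC A B C ^ k) z).1 with hw
    have h1 : C ((B ^ k) z.2) = 0 := by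
      refine zero_of_mem (A := A) (p := p) ?_ (adm_range hC _)
      have h2 : C ((B ^ k) z.2) = (A w + C ((B ^ k) z.2)) - A w := by abel
      rw [h2]
      exact Submodule.sub_mem _ (kerPow_le_spS (by omega) h) (ran_mem_spS w)
    rw [h1, add_zero] at h
    have h3 : w ∈ kerPow A (p - k + 1) := by
      rw [mem_kerPow, pow_succ_apply']
      exact h
    obtain ⟨h4, h5⟩ := ih (by omega) h3
    refine ⟨h4, ?_⟩
    rw [fst_pow_succ, h1, add_zero, ← hw, h5, ← pow_succ_apply]

lemma ker_MC (hA : kerPow A (p + 1) = kerPow A p) (hT : spT B p = kerPow B 1 ⊓ ranPow B p)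
    (hC : Admissible A B p C) : kerPow (MC A B C) (p + 1) = kerPow (MC A B C) p := by
  apply le_antisymm _ (kerPow_mono _ (by omega))
  intro z hz
  rw [mem_kerPow, pow_succ_apply] at hz
  rw [mem_kerPow]
  set y := (MC A B C ^ p) z with hy
  rw [MC_apply] at hz
  have h1 : A y.1 + C y.2 = 0 := congrArg Prod.fst hz
  have h2 : B y.2 = 0 := congrArg Prod.snd hz
  have hyT : y.2 ∈ spT B p := by
    rw [hT]
    refine ⟨?_, ⟨z.2, ?_⟩⟩
    · show (B ^ 1) y.2 = 0
      rw [pow_one]
      exact h2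
    · show (B ^ p) z.2 = y.2
      rw [hy, snd_pow]
  have h3 : C y.2 = 0 := by
    refine zero_of_mem (A := A) (p := p) ?_ (adm_range hC _)
    have : C y.2 = -(A y.1) := by rw [eq_neg_iff_add_eq_zero, add_comm]; exact h1
    rw [this]
    exact Submodule.neg_mem _ (ran_mem_spS _)
  have h4 : y.2 = 0 := by
    obtain ⟨⟨J, hJ⟩, -⟩ := hC
    have h5 : J ⟨y.2, hyT⟩ = 0 := by
      apply Subtype.ext
      rw [← hJ ⟨y.2, hyT⟩]
      exact h3
    exact congrArg Subtype.val ((map_eq_zero_iff J J.injective).1 h5)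
  rw [h3, add_zero] at h1
  obtain ⟨h5, h6⟩ := ascent_step hC z p le_rfl (by
    rw [← hy, mem_kerPow, Nat.sub_self, zero_add, pow_one]
    exact h1)
  rw [hA, mem_kerPow] at h5
  exact Prod.ext (by rw [hy, h6, h5]; rfl) h4

lemma adjust (hT : spT B p = kerPow B 1 ⊓ ranPow B p) (z : K) (hz : z ∈ kerPow B p) (j : ℕ)
    (hj : j ≤ p) : ∃ s : K, z - B s ∈ kerPow B p ∧
      ∀ i, p - j ≤ i → i < p → (B ^ i) (z - B s) ∈ (spT B p)ᗮ := by
  have hcs : CompleteSpace (spT B p) := (spT_isClosed B p).completeSpace_coe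
  induction j with
  | zero => exact ⟨0, by simpa using hz, fun i h1 h2 => by omega⟩
  | succ j ih =>
    obtain ⟨s, hs, hi⟩ := ih (by omega)
    set q := p - (j + 1) with hq
    obtain ⟨t, ht, t', ht', hx⟩ := (spT B p).exists_add_mem_mem_orthogonal ((B ^ q) (z - B s))
    have ht1 := ht
    rw [hT] at ht1
    obtain ⟨ht2, ⟨w, hw⟩⟩ := ht1
    change (B ^ 1) t = 0 at ht2
    change (B ^ p) w = t at hw
    rw [pow_one] at ht2
    have e1 : B ((B ^ (p - q - 1)) w) = (B ^ (p - q)) w := by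
      rw [← pow_succ_apply]
      congr 2
      omega
    have e2 : (B ^ q) ((B ^ (p - q)) w) = t := by
      rw [← pow_add_apply, show q + (p - q) = p by omega, hw]
    have e3 : ∀ i, q < i → (B ^ i) ((B ^ (p - q)) w) = 0 := by
      intro i hi'
      obtain ⟨d, rfl⟩ := Nat.exists_eq_add_of_lt hi'
      rw [show q + d + 1 = d + 1 + q by omega, pow_add_apply, e2, pow_succ_apply', ht2, map_zero]
    refine ⟨s + (B ^ (p - q - 1)) w, ?_, ?_⟩
    · rw [map_add, e1, ← sub_sub, mem_kerPow, map_sub, e3 p (by omega), sub_zero]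
      exact hs
    · intro i h1 h2
      rw [map_add, e1, ← sub_sub, map_sub]
      rcases eq_or_lt_of_le h1 with h3 | h3
      · rw [← h3, e2, hx, add_sub_cancel_left]
        exact ht'
      · rw [e3 i h3, sub_zero]
        exact hi i (by omega) h2

lemma ran_MC (hE : IsClosed (spS A p : Set H)) (hB : ranPow B (p + 1) = ranPow B p)
    (hT : spT B p = kerPow B 1 ⊓ ranPow B p) (hC : Admissible A B p C) :
    ranPow (MC A B C) (p + 1) = ranPow (MC A B C) p := by
  have hcs : CompleteSpace (spS A p) := hE.completeSpace_coe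
  apply le_antisymm (ranPow_anti _ (by omega))
  rintro _ ⟨⟨h, x⟩, rfl⟩
  -- the second component
  obtain ⟨y, hy⟩ : (B ^ p) x ∈ ranPow B (p + 1) := by rw [hB]; exact ⟨x, rfl⟩
  change (B ^ (p + 1)) y = (B ^ p) x at hy
  have hz : x - B y ∈ kerPow B p := by
    rw [mem_kerPow, map_sub, ← pow_succ_apply', hy, sub_self]
  obtain ⟨s, hs, hi⟩ := adjust hT (x - B y) hz p le_rfl
  set z' := x - B y - B s with hz'
  have hCz : ∀ i < p, C ((B ^ i) z') = 0 := fun i h => hC.2 _ (hi i (by omega) h)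
  -- the first component
  obtain ⟨v, hv, v', hv', hx⟩ := (spS A p).exists_add_mem_mem_orthogonal (h - C (y + s))
  obtain ⟨a, ⟨u, hu⟩, n, hn, hv2⟩ := Submodule.mem_sup.1 hv
  change (A ^ 1) u = a at hu
  rw [pow_one] at hu
  obtain ⟨⟨J, hJ⟩, -⟩ := id hC
  obtain ⟨w, hw⟩ := J.surjective ⟨v', hv'⟩
  have hw1 : C w = v' := by rw [hJ w, hw]
  have hw2 : B w = 0 := by
    have h1 : (w : K) ∈ kerPow B 1 ⊓ ranPow B p := by rw [← hT]; exact w.2
    have h2 := h1.1
    change (B ^ 1) (w : K) = 0 at h2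
    rw [pow_one] at h2
    exact h2
  have key : ((h, x) : H × K) = MC A B C (u, y + s + w) + (n, z') := by
    rw [MC_apply]
    apply Prod.ext
    · show h = A u + C (y + s + w) + n
      rw [map_add C (y + s), hw1, hu]
      have h1 : h = (h - C (y + s)) + C (y + s) := by abel
      rw [h1, hx, ← hv2]
      abel
    · show x = B (y + s + w) + z'
      rw [map_add, map_add, hw2, hz']
      abel
  have hker : (MC A B C ^ p) (n, z') = 0 := by
    apply Prod.ext
    · rw [fst_pow_of A B C (n, z') p hCz]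
      exact hn
    · rw [snd_pow]
      exact hs
  refine ⟨(u, y + s + w), ?_⟩
  show (MC A B C ^ (p + 1)) (u, y + s + w) = (MC A B C ^ p) (h, x)
  rw [key, map_add, hker, add_zero, pow_succ_apply']

end

/-- **Q2 is true.** -/
theorem result (A : H →L[ℂ] H) (B : K →L[ℂ] K) (hB : RightDrazin B) (p : ℕ)
    -- `p ≥ max {1, asc A, dsc B}`, both finite
    (hp : GoodP A B p) (hE : CondE A B p) (C : K →L[ℂ] H) (hC : Admissible A B p C) :
    DrazinInvertible (MC A B C) ∧ (∀ a, HasAscent (MC A B C) a → a ≤ p) ∧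
      ∀ b, HasDescent (MC A B C) b → b ≤ p := by
  obtain ⟨-, ⟨a, ha, hA⟩, b, hb, hD⟩ := hp
  have hA' : kerPow A (p + 1) = kerPow A p := by
    rw [ker_stable A hA.1 ha, ker_stable A hA.1 (by omega : a ≤ p + 1)]
  have hB' : ranPow B (p + 1) = ranPow B p := by
    rw [ran_stable B hD.1 hb, ran_stable B hD.1 (by omega : b ≤ p + 1)]
  have hT : spT B p = kerPow B 1 ⊓ ranPow B p := by
    obtain ⟨c, hc, hcl⟩ := hB
    have hbc : b = c := hD.unique hc
    subst hbc
    have h1 : IsClosed ((kerPow B 1 ⊓ ranPow B p : Submodule ℂ K) : Set K) := by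
      rw [Submodule.coe_inf, ran_stable B hD.1 hb]
      exact (isClosed_kerPow B 1).inter hcl
    rw [spT]
    exact h1.submodule_topologicalClosure_eq
  have h1 := ker_MC hA' hT hC
  have h2 := ran_MC hE.1 hB' hT hC
  obtain ⟨a', ha', hA''⟩ := hasAscent_of _ h1
  obtain ⟨b', hb', hB''⟩ := hasDescent_of _ h2
  refine ⟨⟨⟨a', hA''⟩, b', hB''⟩, fun a ha => ha.2 h1, fun b hb => hb.2 h2⟩

end Pool.Agent.Results.MP_632fda_an.Q2True
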